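import Pool.Agent.W428.MOT.Stm

set_option autoImplicit false

namespace Pool.Agent.W417.MT.Free

open MvPolynomial Pool.Agent.W428.MOT

variable {K : Type} [Field K]

theorem pf_update {ι : Type} [DecidableEq ι] (i : ι) (a : K) (j : ι) :
    IsPF (fun z : Pt K ι => Function.update z i (algebraMap K _ a) j) := by
  by_cases h : j = i
  · subst h
    simp only [Function.update_self]
    exact IsPF.const a
  · simp only [Function.update_of_ne h]
    exact IsPF.coord j

theorem coord : S_Coord := by
  intro K _ R _ M ι _ _ S i a T hS hT ha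
  rw [← M.prod S T hS hT]
  have hU1 : Constr {z : Pt K ι | Function.update z i (algebraMap K _ a) ∈ S} :=
    hS.preimage (fun z => Function.update z i (algebraMap K _ a)) (pf_update i a)
  have hU2 : Constr {z : Pt K ι | (fun _ : Fin 1 => z i) ∈ T} :=
    hT.preimage (fun (z : Pt K ι) (_ : Fin 1) => z i) (fun _ => IsPF.coord i)
  have hV : Constr {z : Pt K (ι ⊕ Fin 1) | (fun i => z (Sum.inl i)) ∈ S ∧
      (fun i => z (Sum.inr i)) ∈ T} :=
    (hS.preimage (fun (z : Pt K (ι ⊕ Fin 1)) i => z (Sum.inl i)) fun i => IsPF.coord _).and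
      (hT.preimage (fun (z : Pt K (ι ⊕ Fin 1)) i => z (Sum.inr i)) fun i => IsPF.coord _)
  have hw : ∀ w : Pt K (ι ⊕ Fin 1), (fun i => w (Sum.inl i)) ∈ S →
      Function.update (Function.update (fun j => w (Sum.inl j)) i (w (Sum.inr 0))) i
        (algebraMap K _ a) = fun j => w (Sum.inl j) := by
    intro w hw
    rw [Function.update_idem]
    exact Function.update_eq_self_iff.2 (ha _ hw).symm
  refine M.iso _ _ (hU1.and hU2) hV
    (fun z => Sum.elim (Function.update z i (algebraMap K _ a)) (fun _ => z i))
    (fun w => Function.update (fun j => w (Sum.inl j)) i (w (Sum.inr 0)))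
    (regularOn_poly ?_ _) (regularOn_poly ?_ _) ?_ ?_ ?_ ?_
  · rintro (j | j)
    · exact pf_update i a j
    · exact IsPF.coord i
  · intro j
    by_cases h : j = i
    · subst h
      simp only [Function.update_self]
      exact IsPF.coord _
    · simp only [Function.update_of_ne h]
      exact IsPF.coord _
  · rintro z ⟨h1, h2⟩
    exact ⟨h1, h2⟩
  · rintro w ⟨h1, h2⟩
    refine ⟨?_, ?_⟩
    · change Function.update (Function.update (fun j => w (Sum.inl j)) i (w (Sum.inr 0))) i
        (algebraMap K _ a) ∈ S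
      rw [hw w h1]
      exact h1
    · change (fun _ => Function.update (fun j => w (Sum.inl j)) i (w (Sum.inr 0)) i) ∈ T
      rw [Function.update_self]
      have : (fun _ : Fin 1 => w (Sum.inr 0)) = fun j => w (Sum.inr j) := by
        funext j
        rw [Subsingleton.elim j 0]
      rw [this]
      exact h2
  · rintro z ⟨h1, h2⟩
    change Function.update (Function.update z i (algebraMap K _ a)) i (z i) = z
    rw [Function.update_idem, Function.update_eq_self]
  · rintro w ⟨h1, h2⟩
    funext j
    rcases j with j | j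
    · exact congrFun (hw w h1) j
    · change Function.update (fun j => w (Sum.inl j)) i (w (Sum.inr 0)) i = w (Sum.inr j)
      rw [Function.update_self, Subsingleton.elim j 0]

variable {R : Type} [CommRing R] (M : Meas K R)

theorem chi_gm : M.χ (Fin 1) {z : Pt K (Fin 1) | z 0 ≠ 0} = M.L - 1 := by
  have h0 : Constr {z : Pt K (Fin 1) | z 0 = 0} := Constr.eqz (IsPF.coord 0)
  have h1 : Constr {z : Pt K (Fin 1) | z 0 ≠ 0} := h0.compl
  have h2 := M.add _ _ h0 h1 (by
    rw [Set.disjoint_left]
    intro z hz hz'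
    exact hz' hz)
  have h3 : ({z : Pt K (Fin 1) | z 0 = 0} ∪ {z : Pt K (Fin 1) | z 0 ≠ 0}) = Set.univ := by
    ext z
    simp only [Set.mem_union, Set.mem_ofPred_eq, Set.mem_univ, iff_true]
    exact em _
  rw [h3] at h2
  have h4 : M.χ (Fin 1) {z : Pt K (Fin 1) | z 0 = 0} = 1 := by
    rw [← M.point (ι := Fin 0)]
    refine M.iso _ _ h0 Constr.univ (fun _ j => j.elim0) (fun _ _ => 0)
      (regularOn_poly (fun j => j.elim0) _) (regularOn_poly (fun j => IsPF.zero) _)
      (fun _ _ => Set.mem_univ _) (fun _ _ => rfl) ?_ ?_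
    · intro z hz
      funext j
      rw [Subsingleton.elim j 0]
      exact (show z 0 = 0 from hz).symm
    · intro w _
      funext j
      exact j.elim0
  unfold Meas.L
  rw [h2, h4]
  ring

theorem constr_eqs {ι : Type} (F : Finset ι) (a : ι → K) :
    Constr {z : Pt K ι | ∀ i ∈ F, z i = algebraMap K _ (a i)} :=
  Constr.ballFinset F fun i _ => Constr.eq (IsPF.coord i) (IsPF.const _)

theorem constr_nes {ι : Type} (F : Finset ι) :
    Constr {z : Pt K ι | ∀ i ∈ F, z i ≠ 0} :=
  Constr.ballFinset F fun i _ => Constr.ne (IsPF.coord i) IsPF.zero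

theorem free_one {ι : Type} [Fintype ι] [DecidableEq ι] (F1 : Finset ι) (a : ι → K) :
    ∀ S : Set (Pt K ι), Constr S → (∀ z w : Pt K ι, (∀ i, i ∉ F1 → w i = z i) → z ∈ S → w ∈ S) →
    M.χ ι S = M.χ ι (S ∩ {z | ∀ i ∈ F1, z i = algebraMap K _ (a i)}) * M.L ^ F1.card := by
  induction F1 using Finset.induction_on with
  | empty =>
    intro S hS h
    have : S ∩ {z | ∀ i ∈ (∅ : Finset ι), z i = algebraMap K _ (a i)} = S := by
      ext z
      simp
    rw [this, Finset.card_empty, pow_zero, mul_one]
  | insert i F1 hi ih =>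
    intro S hS h
    let S1 : Set (Pt K ι) := S ∩ {z | z i = algebraMap K _ (a i)}
    have hS1 : Constr S1 := hS.inter (Constr.eq (IsPF.coord i) (IsPF.const _))
    have h1 := ih S1 hS1 (by
      rintro z w hzw ⟨hz1, hz2⟩
      refine ⟨h z w (fun j hj => hzw j fun hj' => hj (Finset.mem_insert_of_mem hj')) hz1, ?_⟩
      change w i = _
      rw [hzw i hi]
      exact hz2)
    have h2 := coord M S1 i (a i) Set.univ hS1 Constr.univ (fun z hz => hz.2)
    have h3 : {z : Pt K ι | Function.update z i (algebraMap K _ (a i)) ∈ S1 ∧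
        (fun _ : Fin 1 => z i) ∈ (Set.univ : Set (Pt K (Fin 1)))} = S := by
      ext z
      constructor
      · rintro ⟨⟨h4, -⟩, -⟩
        refine h _ z (fun j hj => ?_) h4
        rw [Function.update_of_ne]
        rintro rfl
        exact hj (Finset.mem_insert_self _ _)
      · intro hz
        refine ⟨⟨h z _ (fun j hj => ?_) hz, ?_⟩, Set.mem_univ _⟩
        · rw [Function.update_of_ne]
          rintro rfl
          exact hj (Finset.mem_insert_self _ _)
        · change Function.update z i (algebraMap K _ (a i)) i = _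
          rw [Function.update_self]
    have h4 : S1 ∩ {z | ∀ j ∈ F1, z j = algebraMap K _ (a j)} =
        S ∩ {z | ∀ j ∈ insert i F1, z j = algebraMap K _ (a j)} := by
      ext z
      simp only [S1, Set.mem_inter_iff, Set.mem_ofPred_eq, Finset.mem_insert, forall_eq_or_imp]
      tauto
    rw [h3, h1, h4] at h2
    rw [h2, Finset.card_insert_of_notMem hi, pow_succ]
    unfold Meas.L
    ring

theorem main : S_Free := by
  intro K _ R _ M ι _ _ S F0 F1 a hd hS h
  revert S
  induction F0 using Finset.induction_on with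
  | empty =>
    intro S hS h
    have h1 := free_one M F1 a S hS (fun z w hzw => h z w fun j _ hj => hzw j hj)
    have h2 : S ∩ {z : Pt K ι | ∀ i ∈ (∅ : Finset ι), z i ≠ 0} = S := by
      ext z
      simp
    rw [h2, Finset.empty_union, Finset.card_empty, pow_zero, mul_one]
    exact h1
  | insert i F0 hi ih =>
    intro S hS h
    have hi1 : i ∉ F1 := Finset.disjoint_left.1 hd (Finset.mem_insert_self _ _)
    have hd' : Disjoint F0 F1 := Finset.disjoint_left.2 fun j hj =>
      Finset.disjoint_left.1 hd (Finset.mem_insert_of_mem hj)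
    let S1 : Set (Pt K ι) := S ∩ {z | z i = algebraMap K _ (a i)}
    have hS1 : Constr S1 := hS.inter (Constr.eq (IsPF.coord i) (IsPF.const _))
    have h1 := ih hd' S1 hS1 (by
      rintro z w hzw ⟨hz1, hz2⟩
      refine ⟨h z w (fun j hj hj1 => hzw j (fun hj' => hj (Finset.mem_insert_of_mem hj')) hj1)
        hz1, ?_⟩
      change w i = _
      rw [hzw i hi hi1]
      exact hz2)
    have hS2 : Constr (S1 ∩ {z | ∀ j ∈ F0, z j ≠ 0}) := hS1.inter (constr_nes F0)
    have hT : Constr {z : Pt K (Fin 1) | z 0 ≠ 0} := Constr.ne (IsPF.coord 0) IsPF.zero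
    have h2 := coord M (S1 ∩ {z | ∀ j ∈ F0, z j ≠ 0}) i (a i) {z | z 0 ≠ 0} hS2 hT
      (fun z hz => hz.1.2)
    have h3 : {z : Pt K ι | Function.update z i (algebraMap K _ (a i)) ∈
        (S1 ∩ {z | ∀ j ∈ F0, z j ≠ 0}) ∧
        (fun _ : Fin 1 => z i) ∈ {z : Pt K (Fin 1) | z 0 ≠ 0}} =
        S ∩ {z | ∀ j ∈ insert i F0, z j ≠ 0} := by
      ext z
      have hne : ∀ j ∈ F0, Function.update z i (algebraMap K _ (a i)) j = z j := by
        intro j hj
        rw [Function.update_of_ne]
        rintro rfl
        exact hi hj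
      constructor
      · rintro ⟨⟨⟨h4, -⟩, h5⟩, h6⟩
        refine ⟨h _ z (fun j hj _ => ?_) h4, ?_⟩
        · rw [Function.update_of_ne]
          rintro rfl
          exact hj (Finset.mem_insert_self _ _)
        · intro j hj
          rcases Finset.mem_insert.1 hj with rfl | hj
          · exact h6
          · rw [← hne j hj]
            exact h5 j hj
      · rintro ⟨h4, h5⟩
        refine ⟨⟨⟨h z _ (fun j hj _ => ?_) h4, ?_⟩, ?_⟩, h5 i (Finset.mem_insert_self _ _)⟩
        · rw [Function.update_of_ne]
          rintro rfl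
          exact hj (Finset.mem_insert_self _ _)
        · change Function.update z i (algebraMap K _ (a i)) i = _
          rw [Function.update_self]
        · intro j hj
          rw [hne j hj]
          exact h5 j (Finset.mem_insert_of_mem hj)
    have h4 : S1 ∩ {z | ∀ j ∈ F0 ∪ F1, z j = algebraMap K _ (a j)} =
        S ∩ {z | ∀ j ∈ insert i F0 ∪ F1, z j = algebraMap K _ (a j)} := by
      ext z
      simp only [S1, Set.mem_inter_iff, Set.mem_ofPred_eq, Finset.insert_union, Finset.mem_insert,
        forall_eq_or_imp]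
      tauto
    rw [h3, h1, h4, chi_gm] at h2
    rw [h2, Finset.card_insert_of_notMem hi, pow_succ]
    ring

end Pool.Agent.W417.MT.Free
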