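import Pool.Agent.W428.MOT.Stm

set_option autoImplicit false

namespace Pool.Agent.W417.MT.K0

open MvPolynomial Pool.Agent.W428.MOT

variable {K : Type} [Field K] {ι κ : Type}

theorem reg_rename {S : Set (Pt K ι)} {f : Pt K ι → Pt K κ} (hf : RegularOn S f) {α β : Type}
    (a : ι → α) (b : β → κ) :
    RegularOn {z : Pt K α | (fun i => z (a i)) ∈ S} (fun z j => f (fun i => z (a i)) (b j)) := by
  intro j
  obtain ⟨P, Q, h⟩ := hf (b j)
  refine ⟨rename a P, rename a Q, fun z hz => ?_⟩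
  rw [aeval_rename, aeval_rename]
  exact h _ hz

theorem reg_coord {S : Set (Pt K ι)} (a : κ → ι) :
    RegularOn S (fun (z : Pt K ι) (j : κ) => z (a j)) :=
  regularOn_poly (fun j => IsPF.coord (a j)) S

theorem constr_toFin [Fintype ι] {S : Set (Pt K ι)} (hS : Constr S) : Constr (toFin S) :=
  Constr.preimage hS (fun z i => z (Fintype.equivFin ι i)) (fun i => IsPF.coord _)

theorem cls_eq [Fintype ι] {S : Set (Pt K ι)} (hS : Constr S) :
    cls ι S = K0.mk ⟨Fintype.card ι, toFin S, constr_toFin hS⟩ := dif_pos (constr_toFin hS)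

theorem mk_eq_of_rel {x y : MvPolynomial (Var K) ℤ} (h : Rel K (x - y)) :
    (Ideal.Quotient.mk (Ideal.span {x | Rel K x}) x) =
      Ideal.Quotient.mk (Ideal.span {x | Rel K x}) y :=
  (Ideal.Quotient.mk_eq_mk_iff_sub_mem _ _).2 (Ideal.subset_span h)

theorem mk_iso (V W : Var K) (f : Pt K (Fin V.n) → Pt K (Fin W.n))
    (g : Pt K (Fin W.n) → Pt K (Fin V.n))
    (hf : RegularOn V.S f) (hg : RegularOn W.S g) (hfm : Set.MapsTo f V.S W.S)
    (hgm : Set.MapsTo g W.S V.S) (hgf : ∀ x ∈ V.S, g (f x) = x) (hfg : ∀ y ∈ W.S, f (g y) = y) :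
    K0.mk V = K0.mk W := mk_eq_of_rel (Rel.iso V W f g hf hg hfm hgm hgf hfg)

theorem mk_reindex {n m : ℕ} (S : Set (Pt K (Fin n))) (T : Set (Pt K (Fin m))) (hS : Constr S)
    (hT : Constr T) (e : Fin n ≃ Fin m) (h : ∀ z, z ∈ T ↔ (fun i => z (e i)) ∈ S) :
    (K0.mk ⟨n, S, hS⟩ : K0 K) = K0.mk ⟨m, T, hT⟩ := by
  refine mk_iso ⟨n, S, hS⟩ ⟨m, T, hT⟩ (fun z j => z (e.symm j)) (fun z i => z (e i))
    (reg_coord _) (reg_coord _) ?_ ?_ ?_ ?_
  · intro z hz
    rw [h]
    change (fun i => z (e.symm (e i))) ∈ S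
    simp only [Equiv.symm_apply_apply]
    exact hz
  · intro z hz
    exact (h z).1 hz
  · intro z _
    funext i
    change z (e.symm (e i)) = z i
    rw [Equiv.symm_apply_apply]
  · intro z _
    funext i
    change z (e (e.symm i)) = z i
    rw [Equiv.apply_symm_apply]

theorem cls_iso [Fintype ι] [Fintype κ] (S : Set (Pt K ι)) (T : Set (Pt K κ))
    (hS : Constr S) (hT : Constr T) (f : Pt K ι → Pt K κ) (g : Pt K κ → Pt K ι)
    (hf : RegularOn S f) (hg : RegularOn T g) (hfm : Set.MapsTo f S T) (hgm : Set.MapsTo g T S)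
    (hgf : ∀ z ∈ S, g (f z) = z) (hfg : ∀ w ∈ T, f (g w) = w) : cls ι S = cls κ T := by
  rw [cls_eq hS, cls_eq hT]
  let a := Fintype.equivFin ι
  let b := Fintype.equivFin κ
  refine mk_iso ⟨Fintype.card ι, toFin S, constr_toFin hS⟩ ⟨Fintype.card κ, toFin T,
    constr_toFin hT⟩ (fun z j => f (fun i => z (a i)) (b.symm j))
    (fun z j => g (fun i => z (b i)) (a.symm j)) (reg_rename hf _ _) (reg_rename hg _ _) ?_ ?_ ?_ ?_
  · intro z hz
    change (fun i => f (fun i => z (a i)) (b.symm (b i))) ∈ T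
    simp only [Equiv.symm_apply_apply]
    exact hfm hz
  · intro z hz
    change (fun i => g (fun i => z (b i)) (a.symm (a i))) ∈ S
    simp only [Equiv.symm_apply_apply]
    exact hgm hz
  · intro z hz
    funext j
    change g (fun i => f (fun i => z (a i)) (b.symm (b i))) (a.symm j) = z j
    simp only [Equiv.symm_apply_apply]
    have h1 := congrFun (hgf (fun i => z (a i)) hz) (a.symm j)
    refine h1.trans ?_
    change z (a (a.symm j)) = z j
    rw [Equiv.apply_symm_apply]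
  · intro z hz
    funext j
    change f (fun i => g (fun i => z (b i)) (a.symm (a i))) (b.symm j) = z j
    simp only [Equiv.symm_apply_apply]
    have h1 := congrFun (hfg (fun i => z (b i)) hz) (b.symm j)
    refine h1.trans ?_
    change z (b (b.symm j)) = z j
    rw [Equiv.apply_symm_apply]

theorem cls_add [Fintype ι] (S T : Set (Pt K ι)) (hS : Constr S) (hT : Constr T)
    (hd : Disjoint S T) : cls ι (S ∪ T) = cls ι S + cls ι T := by
  have hU := hS.union hT
  rw [cls_eq hS, cls_eq hT, cls_eq hU]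
  have hd' : Disjoint (toFin S) (toFin T) := by
    rw [Set.disjoint_left] at hd ⊢
    intro z hz
    exact hd hz
  have hU' : Constr (toFin S ∪ toFin T) := constr_toFin hU
  have h1 := mk_eq_of_rel (Rel.scissors (toFin S) (toFin T) hd' (constr_toFin hS)
    (constr_toFin hT) hU')
  rw [map_add] at h1
  exact h1

theorem cls_prod [Fintype ι] [Fintype κ] (S : Set (Pt K ι)) (T : Set (Pt K κ))
    (hS : Constr S) (hT : Constr T) :
    cls (ι ⊕ κ) {z | (fun i => z (Sum.inl i)) ∈ S ∧ (fun i => z (Sum.inr i)) ∈ T} =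
      cls ι S * cls κ T := by
  have hP : Constr {z : Pt K (ι ⊕ κ) | (fun i => z (Sum.inl i)) ∈ S ∧
      (fun i => z (Sum.inr i)) ∈ T} :=
    (hS.preimage (fun (z : Pt K (ι ⊕ κ)) i => z (Sum.inl i)) fun i => IsPF.coord _).and
      (hT.preimage (fun (z : Pt K (ι ⊕ κ)) i => z (Sum.inr i)) fun i => IsPF.coord _)
  rw [cls_eq hS, cls_eq hT, cls_eq hP]
  have hQ : Constr (prodSet (toFin S) (toFin T)) :=
    ((constr_toFin hS).preimage (fun (z : Pt K (Fin (Fintype.card ι + Fintype.card κ))) i =>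
      z (Fin.castAdd _ i)) fun i => IsPF.coord _).and
    ((constr_toFin hT).preimage (fun (z : Pt K (Fin (Fintype.card ι + Fintype.card κ))) i =>
      z (Fin.natAdd _ i)) fun i => IsPF.coord _)
  have h1 := mk_eq_of_rel (Rel.prod ⟨Fintype.card ι, toFin S, constr_toFin hS⟩
    ⟨Fintype.card κ, toFin T, constr_toFin hT⟩ hQ)
  rw [map_mul] at h1
  refine Eq.trans ?_ h1
  let e : Fin (Fintype.card (ι ⊕ κ)) ≃ Fin (Fintype.card ι + Fintype.card κ) :=
    (Fintype.equivFin (ι ⊕ κ)).symm.trans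
      ((Equiv.sumCongr (Fintype.equivFin ι) (Fintype.equivFin κ)).trans finSumFinEquiv)
  have he1 : ∀ i : ι, e (Fintype.equivFin (ι ⊕ κ) (Sum.inl i)) =
      Fin.castAdd _ (Fintype.equivFin ι i) := by
    intro i
    simp [e]
  have he2 : ∀ i : κ, e (Fintype.equivFin (ι ⊕ κ) (Sum.inr i)) =
      Fin.natAdd _ (Fintype.equivFin κ i) := by
    intro i
    simp [e]
  refine mk_reindex _ _ _ hQ e ?_
  intro z
  change ((fun i => z (Fin.castAdd _ (Fintype.equivFin ι i))) ∈ S ∧
    (fun i => z (Fin.natAdd _ (Fintype.equivFin κ i))) ∈ T) ↔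
    ((fun i => z (e (Fintype.equivFin (ι ⊕ κ) (Sum.inl i)))) ∈ S ∧
      (fun i => z (e (Fintype.equivFin (ι ⊕ κ) (Sum.inr i)))) ∈ T)
  simp only [he1, he2]

theorem cls_point [Fintype ι] [IsEmpty ι] : cls ι (Set.univ : Set (Pt K ι)) = 1 := by
  have hU : Constr (Set.univ : Set (Pt K (Fin 0))) := Constr.univ
  rw [cls_eq Constr.univ]
  have h1 := mk_eq_of_rel (Rel.one hU)
  rw [map_one] at h1
  refine Eq.trans ?_ h1
  have hc : Fintype.card ι = 0 := Fintype.card_eq_zero
  exact mk_reindex _ _ _ hU (finCongr hc) (fun z => Iff.rfl)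

theorem main : S_K0 := by
  intro K _ _
  exact ⟨{ χ := fun ι _ S => cls ι S
           iso := fun S T hS hT f g => cls_iso S T hS hT f g
           add := fun S T hS hT hd => cls_add S T hS hT hd
           prod := fun S T hS hT => cls_prod S T hS hT
           point := cls_point }, fun _ _ _ => rfl⟩

end Pool.Agent.W417.MT.K0
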