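import Pool.Agent.W428.MOT.Stm

set_option autoImplicit false

namespace Pool.Agent.W417.MT.Tay

open Pool.Agent.W428.MOT

variable {F : Type} [Field F] {n r : ℕ}

theorem tay1 (m : Fin r → Fin n → ℕ) (c : Fin r → F) (δ : Fin r → ℕ)
    (y : Fin n → PowerSeries F) : PowerSeries.constantCoeff (gser m c δ y) =
      gbar m c (Finset.univ.filter fun j => δ j = 0)
        (fun i => PowerSeries.constantCoeff (y i)) := by
  unfold gser gbar
  rw [map_sum, Finset.sum_filter]
  refine Finset.sum_congr rfl fun j _ => ?_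
  rw [map_mul, map_mul, map_pow, map_prod, PowerSeries.constantCoeff_C,
    PowerSeries.constantCoeff_X]
  split_ifs with h
  · rw [h, pow_zero, mul_one]
    simp only [map_pow]
  · rw [zero_pow h, mul_zero, zero_mul]

/-- the derivative of `gser` -/
noncomputable def dg (m : Fin r → Fin n → ℕ) (c : Fin r → F) (δ : Fin r → ℕ) (i₀ : Fin n)
    (y : Fin n → PowerSeries F) : PowerSeries F :=
  ∑ j, PowerSeries.C (c j) * PowerSeries.X ^ δ j *
    ((m j i₀ : PowerSeries F) * ∏ i, y i ^ (m j i - if i = i₀ then 1 else 0))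

theorem tay0 (m : Fin r → Fin n → ℕ) (c : Fin r → F) (δ : Fin r → ℕ) (i₀ : Fin n)
    (y : Fin n → PowerSeries F) : PowerSeries.constantCoeff (dg m c δ i₀ y) =
      dgbar m c (Finset.univ.filter fun j => δ j = 0) i₀
        (fun i => PowerSeries.constantCoeff (y i)) := by
  unfold dg dgbar
  rw [map_sum, Finset.sum_filter]
  refine Finset.sum_congr rfl fun j _ => ?_
  rw [map_mul, map_mul, map_mul, map_pow, map_prod, PowerSeries.constantCoeff_C,
    PowerSeries.constantCoeff_X, map_natCast]
  split_ifs with h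
  · rw [h, pow_zero, mul_one]
    simp only [map_pow]
  · rw [zero_pow h, mul_zero, zero_mul]

theorem tay2 (m : Fin r → Fin n → ℕ) (c : Fin r → F) (δ : Fin r → ℕ)
    (y y' : Fin n → PowerSeries F) (q : ℕ)
    (h : ∀ i, ∀ k ≤ q, PowerSeries.coeff k (y' i) = PowerSeries.coeff k (y i)) :
    ∀ k ≤ q, PowerSeries.coeff k (gser m c δ y') = PowerSeries.coeff k (gser m c δ y) := by
  let I : Ideal (PowerSeries F) := Ideal.span {PowerSeries.X ^ (q + 1)}
  have hI : ∀ a b : PowerSeries F, Ideal.Quotient.mk I a = Ideal.Quotient.mk I b ↔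
      ∀ k ≤ q, PowerSeries.coeff k a = PowerSeries.coeff k b := by
    intro a b
    rw [Ideal.Quotient.mk_eq_mk_iff_sub_mem, Ideal.mem_span_singleton, PowerSeries.X_pow_dvd_iff]
    constructor
    · intro h k hk
      have := h k (Nat.lt_succ_of_le hk)
      rw [map_sub, sub_eq_zero] at this
      exact this
    · intro h k hk
      rw [map_sub, sub_eq_zero]
      exact h k (Nat.le_of_lt_succ hk)
  rw [← hI]
  unfold gser
  rw [map_sum, map_sum]
  refine Finset.sum_congr rfl fun j _ => ?_
  rw [map_mul, map_mul _ _ (∏ i, y i ^ m j i), map_prod, map_prod]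
  congr 1
  refine Finset.prod_congr rfl fun i _ => ?_
  rw [map_pow, map_pow, (hI (y' i) (y i)).2 (h i)]

theorem tay3 (m : Fin r → Fin n → ℕ) (c : Fin r → F) (δ : Fin r → ℕ)
    (y : Fin n → PowerSeries F) (q : ℕ) (i : Fin n) (w : F) (hq : 1 ≤ q) :
    PowerSeries.coeff q (gser m c δ (Function.update y i
          (y i + PowerSeries.C w * PowerSeries.X ^ q))) =
        PowerSeries.coeff q (gser m c δ y) +
          w * PowerSeries.constantCoeff (dg m c δ i y) := by
  set u : PowerSeries F := PowerSeries.C w * PowerSeries.X ^ q with hu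
  have hu2 : (PowerSeries.X : PowerSeries F) ^ (q + 1) ∣ u ^ 2 := by
    rw [hu, mul_pow, ← pow_mul]
    exact Dvd.dvd.mul_left (pow_dvd_pow _ (by omega)) _
  have key : (PowerSeries.X : PowerSeries F) ^ (q + 1) ∣
      gser m c δ (Function.update y i (y i + u)) - (gser m c δ y + u * dg m c δ i y) := by
    unfold gser dg
    rw [Finset.mul_sum, ← Finset.sum_add_distrib, ← Finset.sum_sub_distrib]
    refine Finset.dvd_sum fun j _ => ?_
    have e1 : ∏ l, (Function.update y i (y i + u)) l ^ m j l =
        (y i + u) ^ m j i * ∏ l ∈ Finset.univ.erase i, y l ^ m j l := by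
      rw [← Finset.mul_prod_erase _ _ (Finset.mem_univ i), Function.update_self]
      congr 1
      refine Finset.prod_congr rfl fun l hl => ?_
      rw [Function.update_of_ne (Finset.ne_of_mem_erase hl)]
    have e2 : ∏ l, y l ^ m j l = y i ^ m j i * ∏ l ∈ Finset.univ.erase i, y l ^ m j l :=
      (Finset.mul_prod_erase _ _ (Finset.mem_univ i)).symm
    have e3 : ∏ l, y l ^ (m j l - if l = i then 1 else 0) =
        y i ^ (m j i - 1) * ∏ l ∈ Finset.univ.erase i, y l ^ m j l := by
      rw [← Finset.mul_prod_erase _ _ (Finset.mem_univ i), if_pos rfl]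
      congr 1
      refine Finset.prod_congr rfl fun l hl => ?_
      rw [if_neg (Finset.ne_of_mem_erase hl), Nat.sub_zero]
    obtain ⟨k, hk⟩ := Polynomial.powAddExpansion (y i) u (m j i)
    rw [e1, e2, e3, hk]
    have e4 : PowerSeries.C (c j) * PowerSeries.X ^ δ j *
        ((y i ^ m j i + (m j i : PowerSeries F) * y i ^ (m j i - 1) * u + k * u ^ 2) *
          ∏ l ∈ Finset.univ.erase i, y l ^ m j l) -
        (PowerSeries.C (c j) * PowerSeries.X ^ δ j *
            (y i ^ m j i * ∏ l ∈ Finset.univ.erase i, y l ^ m j l) +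
          u * (PowerSeries.C (c j) * PowerSeries.X ^ δ j * ((m j i : PowerSeries F) *
            (y i ^ (m j i - 1) * ∏ l ∈ Finset.univ.erase i, y l ^ m j l)))) =
        (PowerSeries.C (c j) * PowerSeries.X ^ δ j * k *
          ∏ l ∈ Finset.univ.erase i, y l ^ m j l) * u ^ 2 := by ring
    rw [e4]
    exact Dvd.dvd.mul_left hu2 _
  rw [PowerSeries.X_pow_dvd_iff] at key
  have h1 := key q (Nat.lt_succ_self q)
  rw [map_sub, sub_eq_zero, map_add] at h1
  rw [h1, hu, mul_assoc, PowerSeries.coeff_C_mul, PowerSeries.coeff_X_pow_mul', if_pos le_rfl,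
    Nat.sub_self, PowerSeries.coeff_zero_eq_constantCoeff_apply]

theorem main : S_Tay := by
  intro F _ n r m c δ y
  refine ⟨?_, ?_, ?_⟩
  · rw [PowerSeries.coeff_zero_eq_constantCoeff_apply]
    exact tay1 m c δ y
  · intro q y' h
    exact tay2 m c δ y y' q h
  · intro q i w hq
    rw [tay3 m c δ y q i w hq, tay0]

end Pool.Agent.W417.MT.Tay
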